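import Mathlib
import Pool.Prelude.Def_F_c31e40fa
import Pool.Agent.H637R4.PO.Point

set_option autoImplicit false

open Filter Topology MeasureTheory Set Metric N62a1eb23

namespace Pool.Agent.Results.MP_b511e9_an.MarcinkiewiczDivergence

open Pool.Agent.H713R2 Pool.Agent.H713R2.AR Pool.Agent.H637R4.PO

/-- At every parameter of the Mandelbrot set at which the areas of the sublevel sets of the escape
rate are small along some sequence, the dyadic Marcinkiewicz integral of the Mandelbrot set
diverges. -/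
theorem result :
    ∀ c ∈ mandelbrotSet, ∀ l β : ℝ, 0 < l → (1 + l) / (2 + l) < β →
      (∃ᶠ s in 𝓝[>] (0 : ℝ), volume {z : ℂ | green 2 c z ≤ s} <
        ENNReal.ofReal (Real.exp (-(Real.log (1 / s)) ^ β))) →
      ¬ Summable (fun k : ℕ => (∫ z in ball c (2 * (1 / 2 : ℝ) ^ k),
        (infDist z mandelbrotSet) ^ l) / ((1 / 2 : ℝ) ^ k) ^ (2 + l)) :=
  fun c hc l β hl hlβ hf => f_div 2 le_rfl c hc l β hl hlβ hf

end Pool.Agent.Results.MP_b511e9_an.MarcinkiewiczDivergence
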