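import Mathlib
import Pool.Prelude.Def_F_c31e40fa
import Pool.Agent.H637R4.PO.Fin2

set_option autoImplicit false

open Filter Topology MeasureTheory Set Metric N62a1eb23

namespace Pool.Agent.Results.MP_b511e9_an.SlowDecay

open Pool.Agent.H713R2 Pool.Agent.H713R2.AR Pool.Agent.H637R4.PO

/-- A necessary condition for `z ↦ z ^ 2 + c` to be renormalizable of period `p`. -/
def Ren (c : ℂ) (p : ℕ) : Prop :=
  2 ≤ p ∧ ∃ U : Set ℂ, IsOpen U ∧ Bornology.IsBounded U ∧ (0 : ℂ) ∈ U ∧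
    (∀ n : ℕ, 1 ≤ n → (fun z : ℂ => z ^ 2 + c)^[n * p] 0 ∈ U) ∧
    closure U ⊆ (fun z : ℂ => z ^ 2 + c)^[p] '' U ∧
    ∀ z ∈ closure U, deriv ((fun z : ℂ => z ^ 2 + c)^[p]) z = 0 → z = 0

/-- Infinitely renormalizable parameters at which the areas of the sublevel sets of the escape rate
do not decay slowly form a set of measure zero. -/
theorem result :
    volume {c : ℂ | {p : ℕ | Ren c p}.Infinite ∧ ∃ β : ℝ, 1 / 2 < β ∧
      ∃ᶠ s in 𝓝[>] (0 : ℝ), volume {z : ℂ | green 2 c z ≤ s} <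
        ENNReal.ofReal (Real.exp (-(Real.log (1 / s)) ^ β))} = 0 := by
  refine measure_mono_null ?_ (f_null 2 le_rfl)
  rintro c ⟨hc, hβ⟩
  refine ⟨?_, hβ⟩
  obtain ⟨p, hp2, U, _, hUb, _, hU, _, _⟩ := hc.nonempty
  intro ht
  have h1 : Tendsto (fun n : ℕ => (n + 1) * p) atTop atTop := by
    refine tendsto_atTop_mono (fun n => ?_) (tendsto_id (α := ℕ))
    show n ≤ (n + 1) * p
    nlinarith
  have h2 := ht.comp h1
  have h3 : ∀ᶠ z in Bornology.cobounded ℂ, z ∉ U := hUb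
  obtain ⟨n, hn⟩ := (h2.eventually h3).exists
  exact hn (hU (n + 1) (by omega))

end Pool.Agent.Results.MP_b511e9_an.SlowDecay
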